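import Pool.Agent.TH894.NE4

/-!
# Primes with a fixed Frobenius trace for almost all members of every polynomial family of elliptic curves, the parameters arising
from arbitrary integers by changing a few digits: all traces and arbitrary families of sets of primes at once, with the square root of
the main term as error

The family is `Y ^ 2 = X ^ 3 + a(m) X + b(m)` with arbitrary polynomials `a`, `b` with integer coefficients in `d ≥ 1` variables; the
constants do not depend on `a` and `b`. For `d = 1` these are all one-parameter families. Nothing is used besides Mathlib in the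
statement.
-/

set_option autoImplicit false

namespace Pool.Agent.Results.MP_f1937f_nt.AllPolynomialFamilies

open Finset

/-- The number of the solutions `(x, y)` of `y² = x³ + A x + B` modulo `p`. -/
def points (p : ℕ) (A B : ℤ) : ℕ :=
  ((range p ×ˢ range p).filter
    (fun xy : ℕ × ℕ => (p : ℤ) ∣ (xy.2 : ℤ) ^ 2 - ((xy.1 : ℤ) ^ 3 + A * xy.1 + B))).card

/-- The curve `y² = x³ + A x + B` remains smooth modulo `p` and its trace of Frobenius `p + 1 - #E(F_p) = p - points p A B` is
`t`. -/
def HasTrace (p : ℕ) (A B t : ℤ) : Prop :=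
  ¬ (p : ℤ) ∣ 2 * (4 * A ^ 3 + 27 * B ^ 2) ∧ (p : ℤ) - points p A B = t

open Classical in
/-- The number of the primes `p ≤ x` in `P` of good reduction (for this model) of the curve `y² = x³ + A x + B` with the trace
`t`. -/
noncomputable def traceCount (P : Set ℕ) (A B t : ℤ) (x : ℕ) : ℕ :=
  ((range (x + 1)).filter (fun p => p.Prime ∧ p ∈ P ∧ HasTrace p A B t)).card

open Classical in
/-- The sum over the primes `p ≤ x` in `P` of the proportion of the members with the trace `t` of the family
`y² = x³ + a(n) x + b(n)` among all parameters `n` modulo `p`. -/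
noncomputable def expected {d : ℕ} (a b : MvPolynomial (Fin d) ℤ) (P : Set ℕ) (t : ℤ) (x : ℕ) : ℝ :=
  ∑ p ∈ (range (x + 1)).filter (fun p => p.Prime ∧ p ∈ P),
    (((Fintype.piFinset (fun _ : Fin d => range p)).filter
      (fun n => HasTrace p (MvPolynomial.eval (fun i => (n i : ℤ)) a) (MvPolynomial.eval (fun i => (n i : ℤ)) b) t)).card : ℝ) /
        (p : ℝ) ^ d

/-- For all `P ∈ W` and all integers `t` the number of the primes up to `x` in `P` with the trace `t` differs from the expected
number `V` by at most `(max 1 V) ^ (1 / 2) x ^ δ`. -/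
def Good {d : ℕ} (a b : MvPolynomial (Fin d) ℤ) (W : Set (Set ℕ)) (δ : ℝ) (x : ℕ) (m : Fin d → ℕ) : Prop :=
  ∀ P ∈ W, ∀ t : ℤ,
    |(traceCount P (MvPolynomial.eval (fun i => (m i : ℤ)) a) (MvPolynomial.eval (fun i => (m i : ℤ)) b) t x : ℝ) -
      expected a b P t x| ≤ Real.sqrt (max 1 (expected a b P t x)) * (x : ℝ) ^ δ

/-- The digit number `i` (counted from the right, beginning with `0`) of `n` in base `b`. -/
def digit (b i n : ℕ) : ℕ := n / b ^ i % b

/-- The number which arises from the number `N` with at most `K` digits in base `b`, if for every `i ∈ S`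
the digit number `i` is replaced by `f i`. -/
def change (b K N : ℕ) (f : ℕ → ℕ) (S : Finset ℕ) : ℕ :=
  ∑ i ∈ range K, (if i ∈ S then f i else digit b i N) * b ^ i

open Classical in
/-- The number of the choices of `r l` of `K l` positions for all `l` for which the tuple of the numbers obtained by changing the
digits of the `N l` at the chosen positions (according to `f l`) does not have the property `E`. -/
noncomputable def exceptions {d : ℕ} (b : ℕ) (K r N : Fin d → ℕ) (f : Fin d → ℕ → ℕ) (E : (Fin d → ℕ) → Prop) : ℕ :=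
  ((Fintype.piFinset (fun l => powersetCard (r l) (range (K l)))).filter
    (fun S => ¬ E (fun l => change b (K l) (N l) (f l) (S l)))).card

theorem points_congr (p : ℕ) {A A' B B' : ℤ} (hA : (p : ℤ) ∣ A - A') (hB : (p : ℤ) ∣ B - B') :
    points p A B = points p A' B' := by
  unfold points
  congr 1
  apply filter_congr
  intro xy _
  have h : (p : ℤ) ∣ ((xy.2 : ℤ) ^ 2 - ((xy.1 : ℤ) ^ 3 + A * xy.1 + B)) -
      ((xy.2 : ℤ) ^ 2 - ((xy.1 : ℤ) ^ 3 + A' * xy.1 + B')) := by
    have e : ((xy.2 : ℤ) ^ 2 - ((xy.1 : ℤ) ^ 3 + A * xy.1 + B)) -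
      ((xy.2 : ℤ) ^ 2 - ((xy.1 : ℤ) ^ 3 + A' * xy.1 + B')) = -((A - A') * xy.1 + (B - B')) := by ring
    rw [e]
    exact (dvd_add (hA.mul_right _) hB).neg_right
  exact (dvd_iff_dvd_of_dvd_sub h)

theorem hasTrace_congr (p : ℕ) (t : ℤ) {A A' B B' : ℤ} (hA : (p : ℤ) ∣ A - A') (hB : (p : ℤ) ∣ B - B') :
    HasTrace p A B t ↔ HasTrace p A' B' t := by
  unfold HasTrace
  rw [points_congr p hA hB]
  have h : (p : ℤ) ∣ 2 * (4 * A ^ 3 + 27 * B ^ 2) - 2 * (4 * A' ^ 3 + 27 * B' ^ 2) := by
    have e : 2 * (4 * A ^ 3 + 27 * B ^ 2) - 2 * (4 * A' ^ 3 + 27 * B' ^ 2) =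
      (A - A') * (8 * (A ^ 2 + A * A' + A' ^ 2)) + (B - B') * (54 * (B + B')) := by ring
    rw [e]
    exact dvd_add (hA.mul_right _) (hB.mul_right _)
  rw [dvd_iff_dvd_of_dvd_sub h]

theorem eval_congr {d : ℕ} (a : MvPolynomial (Fin d) ℤ) (p : ℕ) (n : Fin d → ℕ) :
    (p : ℤ) ∣ MvPolynomial.eval (fun i => (n i : ℤ)) a - MvPolynomial.eval (fun i => ((n i % p : ℕ) : ℤ)) a := by
  rw [← ZMod.intCast_zmod_eq_zero_iff_dvd]
  push_cast
  rw [sub_eq_zero]
  have h : ∀ x : Fin d → ℤ, ((MvPolynomial.eval x a : ℤ) : ZMod p) =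
      MvPolynomial.eval₂ ((Int.castRingHom (ZMod p)).comp (RingHom.id ℤ)) (fun i => ((x i : ℤ) : ZMod p)) a := by
    intro x
    have := MvPolynomial.eval₂_comp_left (Int.castRingHom (ZMod p)) (RingHom.id ℤ) x a
    exact this
  rw [h, h]
  congr 1
  funext i
  simp

lemma points_le (p : ℕ) (A B : ℤ) : points p A B ≤ p * p := by
  unfold points
  refine (card_filter_le _ _).trans ?_
  rw [card_product, card_range]

/-- Let a base `b ≥ 2`, an integer `d ≥ 1`, `δ > 0` and integers `A, B ≥ 0` be given. There are `c > 0` and `y₀` such that for all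
polynomials `α, β` in `d` variables with integer coefficients and all integers `r l`, `K l` (`l = 1, ..., d`), `y` with
`2 r l ≤ K l` and `y ≥ y₀` the following holds.

Let `0 ≤ N l < b ^ K l` be arbitrary integers, prescribe for every position `j` a digit `f l j` different from the digit of
`N l` in base `b`, and let for every `x` a set `W x` of at most `x ^ B` sets of natural numbers be given (for instance arithmetic
progressions). If one chooses `r l` of the `K l` positions and replaces the digits of `N l` at these positions, then for all but at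
most a proportion `1 / y ^ A` of the choices the elliptic curve `Y ^ 2 = X ^ 3 + α(m) X + β(m)` with the parameters `m l` obtained has
the following property: for all integers `x` with `y ≤ x ≤ exp (c r l)` for all `l`, all `P ∈ W x` and all integers `t` the number of
the primes `p ≤ x` in `P` with the trace of Frobenius `t` differs from its expected value `V` (the sum over the primes `p ≤ x` in `P`
of the proportion of the parameters modulo `p` with the trace `t`) by at most `(max 1 V) ^ (1 / 2) x ^ δ`. -/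
theorem result (b d : ℕ) (hb : 2 ≤ b) (hd : 1 ≤ d) (δ : ℝ) (hδ : 0 < δ) (A B : ℕ) : ∃ c : ℝ, 0 < c ∧ ∃ y₀ : ℕ,
    ∀ (α β : MvPolynomial (Fin d) ℤ) (K r : Fin d → ℕ) (y : ℕ), (∀ l, 2 * r l ≤ K l) → y₀ ≤ y →
    ∀ N : Fin d → ℕ, (∀ l, N l < b ^ K l) → ∀ f : Fin d → ℕ → ℕ, (∀ l j, f l j < b ∧ f l j ≠ digit b j (N l)) →
    ∀ W : ℕ → Set (Set ℕ), (∀ x, (W x).Finite ∧ (W x).ncard ≤ x ^ B) →
      (exceptions b K r N f
        (fun m => ∀ x : ℕ, y ≤ x → (∀ l, (x : ℝ) ≤ Real.exp (c * r l)) → Good α β (W x) δ x m) : ℝ) ≤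
        1 / (y : ℝ) ^ A * ∏ l, ((K l).choose (r l) : ℝ) := by
  classical
  obtain ⟨c, hc, x₀, h⟩ := Pool.Agent.TH894.NE.law2 b d hb hd δ A ((B + 4 : ℕ) : ℝ) hδ
  refine ⟨c, hc, x₀ + 3, fun α β K r y hrK hy N hN f hf W hW => ?_⟩
  have hWf : ∀ n, (W n).Finite := fun n => (hW n).1
  have hy0 : (0 : ℝ) < y := by exact_mod_cast (by omega : 0 < y)
  have h1 : 1 / (y : ℝ) ^ A = (y : ℝ) ^ (-(A : ℝ)) := by
    rw [Real.rpow_neg hy0.le, Real.rpow_natCast, one_div]
  rw [h1]
  obtain ⟨T, hT⟩ : ∃ T : ℤ → ℕ → (Fin d → ℕ) → Prop, T = fun t p n =>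
      HasTrace p (MvPolynomial.eval (fun i => (n i : ℤ)) α) (MvPolynomial.eval (fun i => (n i : ℤ)) β) t := ⟨_, rfl⟩
  unfold exceptions
  refine h r K y hrK (by omega) N hN f hf (Set ℕ × ℤ)
    (fun x => if x < 2 then ∅ else (hWf x).toFinset ×ˢ Icc (-((x : ℤ) ^ 2)) ((x : ℤ) ^ 2)) ?_ ℕ
    (fun x l => (range (x + 1)).filter (fun p => p.Prime ∧ p ∈ l.1)) (fun _ p => p) ?_ ?_
    (fun l p m => T l.2 p m) ?_ _ (filter_subset _ _) ?_
  · intro x _
    show (((if x < 2 then ∅ else (hWf x).toFinset ×ˢ Icc (-((x : ℤ) ^ 2)) ((x : ℤ) ^ 2)) : Finset (Set ℕ × ℤ)).card : ℝ) ≤ _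
    rw [Real.rpow_natCast]
    split_ifs with hx
    · rw [card_empty, Nat.cast_zero]
      positivity
    · push Not at hx
      rw [card_product, ← Set.ncard_eq_toFinset_card _ (hWf x), Int.card_Icc]
      have h4 : 4 ≤ x ^ 2 := by
        calc 4 = 2 ^ 2 := by norm_num
          _ ≤ x ^ 2 := Nat.pow_le_pow_left hx 2
      have e0 : ((x : ℤ) ^ 2 + 1 - -((x : ℤ) ^ 2)).toNat = 2 * x ^ 2 + 1 := by
        have : (x : ℤ) ^ 2 + 1 - -((x : ℤ) ^ 2) = ((2 * x ^ 2 + 1 : ℕ) : ℤ) := by
          push_cast
          ring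
        rw [this, Int.toNat_natCast]
      rw [e0]
      have e1 : (W x).ncard * (2 * x ^ 2 + 1) ≤ x ^ (B + 4) := by
        rw [pow_add]
        apply Nat.mul_le_mul (hW x).2
        have h5 : x ^ 4 = x ^ 2 * x ^ 2 := by ring
        rw [h5]
        nlinarith
      exact_mod_cast e1
  · intro x l _ p hp
    rw [mem_filter, mem_range] at hp
    exact ⟨hp.2.1.one_lt.le, by omega⟩
  · intro x l _ p hp p' hp' hne
    rw [mem_filter] at hp hp'
    exact (Nat.coprime_primes hp.2.1 hp'.2.1).2 hne
  · intro x l _ p _ m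
    rw [hT]
    exact hasTrace_congr p l.2 (eval_congr α p m) (eval_congr β p m)
  · intro S hS
    rw [mem_filter] at hS
    obtain ⟨_, hS2⟩ := hS
    unfold Good at hS2
    push Not at hS2
    obtain ⟨x, hyx, hxr, P, hP, t, hlt⟩ := hS2
    have hx0 : (0 : ℝ) < x := by exact_mod_cast (by omega : 0 < x)
    obtain ⟨m, hm⟩ : ∃ m : Fin d → ℕ, m = fun l => change b (K l) (N l) (f l) (S l) := ⟨_, rfl⟩
    have hlt' : Real.sqrt (max 1 (expected α β P t x)) * (x : ℝ) ^ δ <
        |(traceCount P (MvPolynomial.eval (fun i => (m i : ℤ)) α) (MvPolynomial.eval (fun i => (m i : ℤ)) β) t x : ℝ) -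
          expected α β P t x| := by
      rw [hm]
      exact hlt
    have hcount : (traceCount P (MvPolynomial.eval (fun i => (m i : ℤ)) α) (MvPolynomial.eval (fun i => (m i : ℤ)) β) t x : ℝ) =
        ((((range (x + 1)).filter (fun p => p.Prime ∧ p ∈ P)).filter (fun p => T t p m)).card : ℝ) := by
      unfold traceCount
      rw [filter_filter, hT]
      simp only [and_assoc]
    have hexp : expected α β P t x = ∑ p ∈ (range (x + 1)).filter (fun p => p.Prime ∧ p ∈ P),
        Pool.Agent.TH894.NE.Pr d p (fun n => T t p n) := by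
      unfold expected Pool.Agent.TH894.NE.Pr Pool.Agent.TH894.NE.box
      rw [hT]
    refine ⟨x, hyx, fun l => (Real.log_le_iff_le_exp hx0).2 (hxr l), (P, t), ?_, ?_⟩
    · show (P, t) ∈ (if x < 2 then ∅ else (hWf x).toFinset ×ˢ Icc (-((x : ℤ) ^ 2)) ((x : ℤ) ^ 2))
      rw [if_neg (by omega), mem_product, Set.Finite.mem_toFinset]
      refine ⟨hP, ?_⟩
      by_contra hcon
      -- no prime up to `x` has such a trace
      have hno : ∀ p ∈ (range (x + 1)).filter (fun p => p.Prime ∧ p ∈ P), ∀ A' B', ¬ HasTrace p A' B' t := by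
        intro p hp A' B' hn
        rw [mem_filter, mem_range] at hp
        apply hcon
        unfold HasTrace at hn
        have h2 := points_le p A' B'
        have hpx : p ≤ x := by omega
        have h3 : p * p ≤ x ^ 2 := by rw [sq]; exact Nat.mul_le_mul hpx hpx
        have h4 : p ≤ x ^ 2 := hpx.trans (Nat.le_self_pow (by norm_num) x)
        have h5 : (points p A' B' : ℤ) ≤ (x : ℤ) ^ 2 := by exact_mod_cast h2.trans h3
        have h6 : (p : ℤ) ≤ (x : ℤ) ^ 2 := by exact_mod_cast h4
        have h7 : (0 : ℤ) ≤ points p A' B' := Nat.cast_nonneg _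
        have h8 : (0 : ℤ) ≤ (p : ℤ) := Nat.cast_nonneg _
        rw [mem_Icc, ← hn.2]
        constructor <;> linarith
      have h9 : traceCount P (MvPolynomial.eval (fun i => (m i : ℤ)) α) (MvPolynomial.eval (fun i => (m i : ℤ)) β) t x = 0 := by
        unfold traceCount
        rw [card_eq_zero, filter_eq_empty_iff]
        intro p hp hp2
        exact hno p (by rw [mem_filter]; exact ⟨hp, hp2.1, hp2.2.1⟩) _ _ hp2.2.2
      have h10 : expected α β P t x = 0 := by
        unfold expected
        apply sum_eq_zero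
        intro p hp
        have : (Fintype.piFinset (fun _ : Fin d => range p)).filter
            (fun n => HasTrace p (MvPolynomial.eval (fun i => (n i : ℤ)) α) (MvPolynomial.eval (fun i => (n i : ℤ)) β) t) = ∅ := by
          rw [filter_eq_empty_iff]
          intro n _
          exact hno p hp _ _
        rw [this, card_empty, Nat.cast_zero, zero_div]
      rw [h9, h10] at hlt'
      simp at hlt'
      have : 0 ≤ (x : ℝ) ^ δ := by positivity
      linarith
    · rw [hcount, hexp, hm] at hlt'
      exact hlt'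

end Pool.Agent.Results.MP_f1937f_nt.AllPolynomialFamilies
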