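import Pool.Agent.Results.MP_f1937f_nt.AllCurvesInWindows
import Pool.Agent.V1176.LN.Near

/-!
# Primes with a fixed Frobenius trace for all curves near the powers of almost every number

The notation is that of `AllCurvesInWindows`. Let `λ_m / log m → ∞`, for example `λ_m = m`, let `U` be a countable set of
reals, `θ < 1` and `0 ≤ κ ≤ 1`. For all `x > 1` outside a set of Hausdorff dimension at most `(1 - κ) / (1 - θ)`, all `β > 0`
in `U` and ALL polynomials `a`, `b`, all but finitely many integers `n` with `|n - β x ^ (λ_m)| ≤ x ^ (θ λ_m)` for some `m`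
satisfy the law up to `y` for ALL `y ≤ n ^ (1 / 2)`.
-/

set_option autoImplicit false

namespace Pool.Agent.Results.MP_f1937f_nt.CurvesNearPowers

open Polynomial Filter
open Pool.Agent.Results.MP_f1937f_nt.AllCurvesInWindows (Law HasTrace)

/-- The natural number `n` is near `β x ^ (λ_m)` for some `m`. -/
def Near (lam : ℕ → ℝ) (β θ x : ℝ) (n : ℕ) : Prop := ∃ m : ℕ, |(n : ℝ) - β * x ^ lam m| ≤ x ^ (θ * lam m)

/-- The member `n ≥ 1` violates the law for some `y ≤ n ^ (1 / 2)`. -/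
def Violates (P : ℕ → Set ℕ) (i : ℤ × ℕ) (a b : ℤ[X]) (κ ε : ℝ) (n : ℕ) : Prop :=
  1 ≤ n ∧ ¬ ∀ y : ℕ, y ^ 2 ≤ n → Law P i a b κ ε n y

/-- **Primes with a fixed Frobenius trace for all curves near the powers of almost every number.** -/
theorem result (lam : ℕ → ℝ) (hlam : Tendsto (fun n : ℕ => lam n / Real.log n) atTop atTop) (U : Set ℝ)
    (hU : U.Countable) (κ θ : ℝ) (hκ0 : 0 ≤ κ) (hκ1 : κ ≤ 1) (hθ : θ < 1) (P : ℕ → Set ℕ) :
    ∃ E : Set ℝ, dimH E ≤ ENNReal.ofReal ((1 - κ) / (1 - θ)) ∧ ∀ x : ℝ, 1 < x → x ∉ E → ∀ β ∈ U, 0 < β →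
      ∀ (i : ℤ × ℕ) (a b : ℤ[X]) (ε : ℝ), 0 < ε →
        {n : ℕ | Near lam β θ x n ∧ Violates P i a b κ ε n}.Finite := by
  obtain ⟨E, hE, h⟩ := Pool.Agent.V1176.LN.ell_near (H := HasTrace P)
    (Pool.Agent.Results.MP_f1937f_nt.AllCurvesInWindows.inv P) hlam hκ0 hκ1 hθ U hU
  refine ⟨E, hE, fun x hx hxE β hβ hβ0 i a b ε hε => ?_⟩
  refine (h x hx hxE β hβ hβ0 i a b ε hε).subset ?_
  rintro n ⟨hn1, hn2, hn3⟩
  exact ⟨hn2, hn1, hn3⟩

end Pool.Agent.Results.MP_f1937f_nt.CurvesNearPowers
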